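import Pool.Agent.Zk35.SD.Step

/-! The number of the arithmetic gates of one level of the symmetrization. -/

set_option autoImplicit false
set_option linter.unusedSectionVars false

open Finset

namespace Pool.Agent.Zk77.SDS

open Pool.Agent.Zk35.SD
open Pool.Agent.Zk35.SD.Step

universe u

/-- the kinds of the new gates -/
abbrev RA (V Q : Type) : Type :=
    (Q) ⊕ (
    (Q) ⊕ (
    (V) ⊕ (
    (Q × (V × Q)) ⊕ (
    ((V × Q) × Q) ⊕ (
    (V × Q) ⊕ (
    (Q × (V × Q)) ⊕ (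
    (Q × (V × Q)) ⊕ (
    ((V × Q) × Q)))))))))

/-- the kinds of the new gates -/
abbrev RB (T V S Q : Type) : Type :=
    (Bool × (Q × ((V × Q) × (S × I0 T V S Q)))) ⊕ (
    (Bool × ((V × (Q × S)) × I0 T V S Q)) ⊕ (
    (Bool × (I1 T V S Q × ((V × Q) × (S × Q)))) ⊕ (
    (Bool × (I1 T V S Q × (V × (Q × S)))) ⊕ (
    ((V × Q) × (S × (Q × I1 T V S Q))) ⊕ (
    (((V × Q) × S) × I1 T V S Q) ⊕ (
    (I0 T V S Q × ((V × Q) × (S × Q))) ⊕ (
    (I0 T V S Q × ((V × Q) × S)))))))))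

/-- the kinds of the new gates -/
abbrev RR (T V S Q : Type) : Type := RA V Q ⊕ RB T V S Q

instance (V Q : Type) [Fintype V] [Fintype Q] : Fintype (RA V Q) := inferInstance

instance (T V S Q : Type) [Fintype T] [Fintype V] [Fintype S] [Fintype Q] :
    Fintype (RB T V S Q) := inferInstance

/-- the new gates -/
def rst {T V S Q ι : Type} : RR T V S Q → UG T V S Q ι
  | Sum.inl (Sum.inl i) => UG.cst i
  | Sum.inl (Sum.inr (Sum.inl i)) => UG.kap i
  | Sum.inl (Sum.inr (Sum.inr (Sum.inl v))) => UG.tp v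
  | Sum.inl (Sum.inr (Sum.inr (Sum.inr (Sum.inl (i, p))))) => UG.dd i p
  | Sum.inl (Sum.inr (Sum.inr (Sum.inr (Sum.inr (Sum.inl (p, b)))))) => UG.ee p b
  | Sum.inl (Sum.inr (Sum.inr (Sum.inr (Sum.inr (Sum.inr (Sum.inl p)))))) => UG.rr p
  | Sum.inl (Sum.inr (Sum.inr (Sum.inr (Sum.inr (Sum.inr (Sum.inr (Sum.inl (i, p)))))))) => UG.num i p
  | Sum.inl (Sum.inr (Sum.inr (Sum.inr (Sum.inr (Sum.inr (Sum.inr (Sum.inr (Sum.inl (i, p))))))))) => UG.X i p
  | Sum.inl (Sum.inr (Sum.inr (Sum.inr (Sum.inr (Sum.inr (Sum.inr (Sum.inr (Sum.inr (p, i))))))))) => UG.W p i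
  | Sum.inr (Sum.inl (b, i, p, s, j)) => UG.p1 b i p s j
  | Sum.inr (Sum.inr (Sum.inl (b, x, j))) => UG.s1 b x j
  | Sum.inr (Sum.inr (Sum.inr (Sum.inl (b, i, p, s, j)))) => UG.p2 b i p s j
  | Sum.inr (Sum.inr (Sum.inr (Sum.inr (Sum.inl (b, i, x))))) => UG.s2 b i x
  | Sum.inr (Sum.inr (Sum.inr (Sum.inr (Sum.inr (Sum.inl (p, s, i, j)))))) => UG.p3 p s i j
  | Sum.inr (Sum.inr (Sum.inr (Sum.inr (Sum.inr (Sum.inr (Sum.inl (y, j))))))) => UG.s3 y j
  | Sum.inr (Sum.inr (Sum.inr (Sum.inr (Sum.inr (Sum.inr (Sum.inr (Sum.inl (l, p, s, j)))))))) => UG.p4 l p s j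
  | Sum.inr (Sum.inr (Sum.inr (Sum.inr (Sum.inr (Sum.inr (Sum.inr (Sum.inr (l, y)))))))) => UG.s4 l y

/-- the gates as a sum of products -/
def tf {T V S Q ι : Type} : UG T V S Q ι → Inp (I0 T V S Q) (V × Q) ⊕ (ι ⊕ RR T V S Q)
  | UG.inp e => Sum.inl e
  | UG.cc g => Sum.inr (Sum.inl g)
  | UG.cst i => Sum.inr (Sum.inr (Sum.inl (Sum.inl i)))
  | UG.kap i => Sum.inr (Sum.inr (Sum.inl (Sum.inr (Sum.inl i))))
  | UG.tp v => Sum.inr (Sum.inr (Sum.inl (Sum.inr (Sum.inr (Sum.inl v)))))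
  | UG.dd i p => Sum.inr (Sum.inr (Sum.inl (Sum.inr (Sum.inr (Sum.inr (Sum.inl (i, p)))))))
  | UG.ee p b => Sum.inr (Sum.inr (Sum.inl (Sum.inr (Sum.inr (Sum.inr (Sum.inr (Sum.inl (p, b))))))))
  | UG.rr p => Sum.inr (Sum.inr (Sum.inl (Sum.inr (Sum.inr (Sum.inr (Sum.inr (Sum.inr (Sum.inl p))))))))
  | UG.num i p => Sum.inr (Sum.inr (Sum.inl (Sum.inr (Sum.inr (Sum.inr (Sum.inr (Sum.inr (Sum.inr (Sum.inl (i, p))))))))))
  | UG.X i p => Sum.inr (Sum.inr (Sum.inl (Sum.inr (Sum.inr (Sum.inr (Sum.inr (Sum.inr (Sum.inr (Sum.inr (Sum.inl (i, p)))))))))))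
  | UG.W p i => Sum.inr (Sum.inr (Sum.inl (Sum.inr (Sum.inr (Sum.inr (Sum.inr (Sum.inr (Sum.inr (Sum.inr (Sum.inr (p, i)))))))))))
  | UG.p1 b i p s j => Sum.inr (Sum.inr (Sum.inr (Sum.inl (b, i, p, s, j))))
  | UG.s1 b x j => Sum.inr (Sum.inr (Sum.inr (Sum.inr (Sum.inl (b, x, j)))))
  | UG.p2 b i p s j => Sum.inr (Sum.inr (Sum.inr (Sum.inr (Sum.inr (Sum.inl (b, i, p, s, j))))))
  | UG.s2 b i x => Sum.inr (Sum.inr (Sum.inr (Sum.inr (Sum.inr (Sum.inr (Sum.inl (b, i, x)))))))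
  | UG.p3 p s i j => Sum.inr (Sum.inr (Sum.inr (Sum.inr (Sum.inr (Sum.inr (Sum.inr (Sum.inl (p, s, i, j))))))))
  | UG.s3 y j => Sum.inr (Sum.inr (Sum.inr (Sum.inr (Sum.inr (Sum.inr (Sum.inr (Sum.inr (Sum.inl (y, j)))))))))
  | UG.p4 l p s j => Sum.inr (Sum.inr (Sum.inr (Sum.inr (Sum.inr (Sum.inr (Sum.inr (Sum.inr (Sum.inr (Sum.inl (l, p, s, j))))))))))
  | UG.s4 l y => Sum.inr (Sum.inr (Sum.inr (Sum.inr (Sum.inr (Sum.inr (Sum.inr (Sum.inr (Sum.inr (Sum.inr (l, y))))))))))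

/-- the inverse -/
def fr {T V S Q ι : Type} : Inp (I0 T V S Q) (V × Q) ⊕ (ι ⊕ RR T V S Q) → UG T V S Q ι
  | Sum.inl e => UG.inp e
  | Sum.inr (Sum.inl g) => UG.cc g
  | Sum.inr (Sum.inr r) => rst r

theorem fr_tf {T V S Q ι : Type} (g : UG T V S Q ι) : fr (tf g) = g := by
  cases g <;> rfl

theorem rst_tf {T V S Q ι : Type} (r : RR T V S Q) :
    tf (rst r : UG T V S Q ι) = Sum.inr (Sum.inr r) := by
  rcases r with (r | r | r | r | r | r | r | r | r) | (r | r | r | r | r | r | r | r) <;> rfl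

theorem tf_fr {T V S Q ι : Type} (x : Inp (I0 T V S Q) (V × Q) ⊕ (ι ⊕ RR T V S Q)) :
    tf (fr x) = x := by
  rcases x with e | g | r
  · rfl
  · rfl
  · exact rst_tf r

/-- the gates as a sum of products -/
def ugEquiv (T V S Q ι : Type) :
    UG T V S Q ι ≃ Inp (I0 T V S Q) (V × Q) ⊕ (ι ⊕ RR T V S Q) where
  toFun := tf
  invFun := fr
  left_inv := fr_tf
  right_inv := tf_fr

/-- the finiteness -/
@[reducible] def ugFintype (T V S Q ι : Type) [Fintype T] [Fintype V] [Fintype S] [Fintype Q]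
    [Fintype ι] : Fintype (UG T V S Q ι) :=
  Fintype.ofEquiv _ (ugEquiv T V S Q ι).symm

theorem card_RR (T V S Q : Type) [Fintype T] [Fintype V] [Fintype S] [Fintype Q] [Nonempty V]
    [Nonempty S] [Nonempty Q] : Fintype.card (RR T V S Q) ≤
      30 * (Fintype.card Q * Fintype.card ((V × Q) × S) * Fintype.card (I0 T V S Q)) := by
  simp only [RR, I0, I1, Fintype.card_sum, Fintype.card_prod, Fintype.card_bool]
  have hv : 1 ≤ Fintype.card V := Fintype.card_pos
  have hs : 1 ≤ Fintype.card S := Fintype.card_pos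
  have hq : 1 ≤ Fintype.card Q := Fintype.card_pos
  generalize Fintype.card V = v at *
  generalize Fintype.card S = s at *
  generalize Fintype.card Q = q at *
  generalize Fintype.card T = t at *
  set n := t + v * q * s with hn
  have hn' : t + v * (q * s) = n := by rw [hn]; ring
  rw [hn']
  set m := v * q * s with hm
  have hmn : m ≤ n := by omega
  have h1 : v * q ≤ m := Nat.le_mul_of_pos_right _ hs
  have h2 : q ≤ v * q := Nat.le_mul_of_pos_left _ hv
  have h3 : v ≤ v * q := Nat.le_mul_of_pos_right _ hq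
  have hqm : q ≤ m := h2.trans h1
  have hm1 : 1 ≤ m := hq.trans hqm
  have hn1 : 1 ≤ n := hm1.trans hmn
  have h4 : q * m ≤ q * m * n := Nat.le_mul_of_pos_right _ hn1
  have h5 : m ≤ q * m := Nat.le_mul_of_pos_left _ hq
  have h6 : m * n ≤ q * m * n := Nat.mul_le_mul_right n h5
  have h7 : q * (v * q) ≤ q * m := Nat.mul_le_mul_left _ h1
  have h8 : v * q * q = q * (v * q) := by ring
  have e1 : q * (v * q * (s * n)) = q * m * n := by rw [hm]; ring
  have e2 : v * (q * s) * n = m * n := by rw [hm]; ring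
  have e3 : n * (v * q * (s * q)) = q * m * n := by rw [hm]; ring
  have e4 : n * (v * (q * s)) = m * n := by rw [hm]; ring
  have e5 : v * q * (s * (q * n)) = q * m * n := by rw [hm]; ring
  have e6 : n * m = m * n := by ring
  rw [e1, e2, e3, e4, e5, e6, h8]
  omega

variable {K : Type u} [Field K] {T V S Q ι : Type} [Fintype T] [Fintype V] [Fintype S] [Fintype Q]
  [Fintype ι]

theorem isArith_cg {G : Gate K (Inp (I1 T V S Q) V) ι} (h : (cg G).IsArith) : G.IsArith := by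
  cases G with
  | const a => trivial
  | input e => exact absurd ⟨_, rfl⟩ h
  | sum s =>
    rintro ⟨g, hg⟩
    apply h
    rw [hg]
    exact ⟨_, rfl⟩
  | prod s => trivial
  | div a b => trivial

theorem count [Nonempty V] [Nonempty S] [Nonempty Q] (C : Circuit K (Inp (I1 T V S Q) V) ι)
    (out : I1 T V S Q → I1 T V S Q → ι) (c : Q → K) :
    @arith K _ _ _ (ugFintype T V S Q ι) (nc C out c) ≤ arith C +
      30 * (Fintype.card Q * Fintype.card ((V × Q) × S) * Fintype.card (I0 T V S Q)) := by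
  classical
  letI := ugFintype T V S Q ι
  refine le_trans ?_ (Nat.add_le_add_left (card_RR T V S Q) _)
  unfold arith
  have hsub : (univ.filter fun g => ((nc C out c).gate g).IsArith) ⊆
      (univ.filter fun g => (C.gate g).IsArith).image (UG.cc : ι → UG T V S Q ι) ∪
        (univ : Finset (RR T V S Q)).image rst := by
    intro g hg
    rw [mem_filter] at hg
    rw [mem_union, mem_image, mem_image]
    have h1 := fr_tf g
    rcases h2 : tf g with e | x | r
    · rw [h2] at h1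
      rw [← h1] at hg
      exact absurd hg.2 (fun h => h)
    · rw [h2] at h1
      left
      refine ⟨x, ?_, h1⟩
      rw [mem_filter]
      rw [← h1] at hg
      exact ⟨mem_univ _, isArith_cg hg.2⟩
    · rw [h2] at h1
      right
      exact ⟨r, mem_univ _, h1⟩
  refine (card_le_card hsub).trans ((card_union_le _ _).trans ?_)
  exact Nat.add_le_add card_image_le (card_image_le.trans (le_of_eq card_univ))

end Pool.Agent.Zk77.SDS
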